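import Pool.Agent.Lib.MP_a304db_al.Final

/-!
# The Sobolev pseudometric is not a metric in general

For `G = SU(1,1)`, the Harish-Chandra module `V` of polynomials on the unit disc, and the weight
`w(g) = (|a| + |b|)³`, the two norms
`p(f)² = ∫ |f|² dA` and `q(f)² = ∫ |f|² (1 - log (1 - |z|²)) dA` lie in `Norm(V, w)`, have
Sobolev distance zero, and are not equivalent.
-/

set_option autoImplicit false

open Pool.Agent.Lib.MP_a304db_al

namespace Pool.Agent.Results.MP_a304db_al.SobolevPseudometric

/-- For `G = SU(1,1)` there are a Harish-Chandra module `V`, a weight `w` and two norms `p, q` in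
`Norm(V, w)` with Sobolev distance `d(p, q) = 0` that are not equivalent. Here `D` is the (unique)
family of Sobolev operators of `V`. -/
theorem result : ∃ (V : Type) (_ : AddCommGroup V) (_ : Module ℂ V) (M : GKModule V)
    (w : SU11 → ℝ) (D : ℝ → V →ₗ[ℂ] V) (p q : Seminorm ℂ V), IsExample M w D p q :=
  ⟨Polynomial ℂ, inferInstance, inferInstance, Mod, fun g => nrm g ^ 3, Dop, pn 1, pn rhoL,
    isHarishChandra_Mod, isWeight_nrm, ⟨isSobolev_Dop, isSobolev_unique⟩,
    memNorm 1 en_one_ne, memNorm rhoL en_rhoL_ne, sobolevDist_eq_zero,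
    fun h => not_dominated h.2⟩

end Pool.Agent.Results.MP_a304db_al.SobolevPseudometric
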